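import Mathlib

set_option autoImplicit false

namespace Pool.Agent.Results.MP_6d1e65_an.Yes

open Set Filter Topology
open scoped ENNReal

/-- distance distribution functions -/
def DDF : Type := {F : ℝ≥0∞ → ℝ // Monotone F ∧ F 0 = 0 ∧ F ⊤ = 1 ∧
  ∀ x, 0 < x → x < ⊤ → ContinuousWithinAt F (Iio x) x}

/-- unit step at `a` -/
def IsStep (a : ℝ≥0∞) (F : DDF) : Prop := ∀ x, x < ⊤ → F.1 x = if x ≤ a then 0 else 1

/-- triangle functions -/
def Triangle (τ : DDF → DDF → DDF) : Prop :=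
  (∀ F G, τ F G = τ G F) ∧ (∀ F G H, τ (τ F G) H = τ F (τ G H)) ∧
  (∀ F F' G, F.1 ≤ F'.1 → (τ F G).1 ≤ (τ F' G).1) ∧ ∀ E F, IsStep 0 E → τ E F = F

/-- universal for simple spaces -/
def Universal (τ : DDF → DDF → DDF) : Prop :=
  ∀ (S : Type) [EMetricSpace S] (G : DDF) (F : S → S → DDF), ¬ IsStep 0 G → ¬ IsStep ⊤ G →
    (∀ p q x, x < ⊤ → (F p q).1 x = G.1 (x / edist p q)) →
    ∀ p q r, (τ (F p q) (F q r)).1 ≤ (F p r).1

open Classical in
/-- two-step function -/
noncomputable def H (c : ℝ) (h0 : 0 ≤ c) (h1 : c ≤ 1) (a : ℝ≥0∞) (ha : a ≠ ⊤) : DDF :=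
  ⟨fun x => if x = 0 then 0 else if x ≤ a then c else 1, by
    intro x y h
    dsimp only
    split_ifs with p q r s t u v <;> first | linarith | exact absurd (h.trans ‹_›) ‹_› | simp_all,
    by simp, by simp [ha], fun x x0 _ => by
    refine tendsto_const_nhds.congr' ?_
    by_cases h : x ≤ a
    · filter_upwards [Ioo_mem_nhdsLT x0] with y hy
      simp [x0.ne', h, hy.1.ne', hy.2.le.trans h]
    · filter_upwards [Ioo_mem_nhdsLT (not_le.1 h)] with y hy
      simp [x0.ne', h, hy.1.not_ge, (pos_of_gt hy.1).ne']⟩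

theorem le_one (F : DDF) (x : ℝ≥0∞) : F.1 x ≤ 1 := (F.2.1 le_top).trans_eq F.2.2.2.1

theorem nonneg (F : DDF) (x : ℝ≥0∞) : 0 ≤ F.1 x := F.2.2.1.ge.trans (F.2.1 zero_le)

theorem sup_le (F : DDF) {c : ℝ} (h0 : 0 ≤ c) {u : ℝ≥0∞} (hu : u < ⊤)
    (h : u ≤ sSup {v | F.1 v ≤ c}) : F.1 u ≤ c := by
  rcases eq_zero_or_pos u with rfl | u0
  · rwa [F.2.2.1]
  · have : (𝓝[<] u).NeBot := nhdsLT_neBot_of_exists_lt ⟨0, u0⟩
    refine le_of_tendsto (F.2.2.2.2 u u0 hu) ?_
    filter_upwards [self_mem_nhdsWithin] with y hy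
    obtain ⟨v, hv, h⟩ := lt_sSup_iff.1 (lt_of_lt_of_le hy h)
    exact (F.2.1 h.le).trans hv

theorem result : ∀ τ : DDF → DDF → DDF, Triangle τ → Universal τ → ∀ (F G : DDF) (x : ℝ≥0∞),
    (τ F G).1 x ≤ sSup {t | ∃ u v, u + v = x ∧ t = min (F.1 u) (G.1 v)} := by
  rintro τ ⟨cm, -, mo, -⟩ U F G x
  have bd : BddAbove {t | ∃ u v, u + v = x ∧ t = min (F.1 u) (G.1 v)} :=
    ⟨1, by rintro _ ⟨u, v, -, rfl⟩; exact min_le_of_left_le (le_one F u)⟩
  set c := sSup {t | ∃ u v, u + v = x ∧ t = min (F.1 u) (G.1 v)}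
  have lc : ∀ u v, u + v = x → min (F.1 u) (G.1 v) ≤ c := fun u v h => le_csSup bd ⟨u, v, h, rfl⟩
  have c0 : 0 ≤ c := (le_min (nonneg _ _) (nonneg _ _)).trans (lc x 0 (add_zero x))
  by_cases c1 : 1 ≤ c
  · exact (le_one _ _).trans c1
  replace c1 := not_le.1 c1
  have xt : x < ⊤ := lt_top_iff_ne_top.2 fun e => by
    have := lc ⊤ ⊤ (by simp [e])
    rw [F.2.2.2.1, G.2.2.2.1, min_self] at this
    linarith
  have lH : ∀ (F : DDF) a ha, a ≤ sSup {v | F.1 v ≤ c} → F.1 ≤ (H c c0 c1.le a ha).1 := by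
    intro F a ha h y
    simp only [H]
    split_ifs with p q
    · rw [p, F.2.2.1]
    · exact sup_le F c0 (q.trans_lt ha.lt_top) (q.trans h)
    · exact le_one _ _
  set a := sSup {v | F.1 v ≤ c}
  set b := sSup {v | G.1 v ≤ c}
  have xab : x ≤ a + b := by
    by_contra d
    obtain ⟨r, r0, hr⟩ := ENNReal.lt_iff_exists_add_pos_lt.1 (not_le.1 d)
    have at' : a ≠ ⊤ := ne_top_of_lt (le_self_add.trans_lt (not_le.1 d))
    have := lc (a + r) (x - (a + r)) (add_tsub_cancel_of_le (by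
      refine le_trans ?_ hr.le; gcongr; exact le_self_add))
    rcases min_le_iff.1 this with e | e
    · exact (ENNReal.lt_add_right at' (by simpa using r0.ne')).not_ge (le_sSup e)
    · refine (lt_tsub_iff_left.2 ?_ : b < x - (a + r)).not_ge (le_sSup e)
      rwa [add_right_comm]
  have fa : min a x ≠ ⊤ := ne_top_of_le_ne_top xt.ne (min_le_right _ _)
  have fb : min b x ≠ ⊤ := ne_top_of_le_ne_top xt.ne (min_le_right _ _)
  have key := U ℝ (H c c0 c1.le 1 ENNReal.one_ne_top) (fun p q => H c c0 c1.le _ (edist_ne_top p q))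
    (fun h => by have := h 1 (by simp); simp [H] at this; linarith)
    (fun h => by have := h 2 (by simp); simp [H] at this)
    (fun p q y hy => by
      simp only [H, ENNReal.div_eq_zero_iff, edist_ne_top, or_false]
      split_ifs with h1 h2 h3 h4 <;> try rfl
      · exact absurd (ENNReal.div_le_of_le_mul (by simpa using h2)) h3
      · rw [ENNReal.div_le_iff_le_mul (Or.inr ENNReal.one_ne_top) (Or.inr one_ne_zero)] at h4
        exact absurd (by simpa using h4) h2)
    (-(min a x).toReal) 0 (min b x).toReal x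
  have e1 : edist (-(min a x).toReal) 0 = min a x := by
    simp [edist_dist, ENNReal.ofReal_toReal fa]
  have e2 : edist 0 (min b x).toReal = min b x := by
    simp [edist_dist, ENNReal.ofReal_toReal fb]
  have e3 : edist (-(min a x).toReal) (min b x).toReal = min a x + min b x := by
    rw [edist_dist, Real.dist_eq, ← neg_add', abs_neg, ← ENNReal.toReal_add fa fb,
      abs_of_nonneg ENNReal.toReal_nonneg, ENNReal.ofReal_toReal (ENNReal.add_ne_top.2 ⟨fa, fb⟩)]
  refine (mo _ _ _ (lH F _ (edist_ne_top _ _) (e1.trans_le (min_le_left _ _))) x).trans ?_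
  rw [cm]
  refine (mo _ _ _ (lH G _ (edist_ne_top _ _) (e2.trans_le (min_le_left _ _))) x).trans ?_
  rw [cm]
  refine key.trans ?_
  have : x ≤ min a x + min b x := by
    rcases le_total a x with p | p <;> rcases le_total b x with q | q <;> simp [p, q, xab]
  simp only [H, e3, this, if_true]
  split_ifs
  exacts [c0, le_rfl]

end Pool.Agent.Results.MP_6d1e65_an.Yes
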